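import Pool.Agent.H81.RN.Defs

/-!
# Project RN, module NEXT: common lemmas and the parameter structure

Every column `c < (next K W).N` is in the front part (`c < Lf`), in the block part
(`c = Lf + q * j + i`, `j < W.N`, `i ≤ 6 K`, and then `oj = j`, `oi = i`), or in the back part
(`c = Lf + q * W.N + b`, `b < Lf`, and then `bc = b`).
-/

set_option autoImplicit false

namespace Pool.Agent.RN

variable {K : ℕ} {W : Word}

theorem oj_blk (j i : ℕ) (hi : i ≤ 6 * K) : oj K W (Lf K W + q K * j + i) = j := by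
  unfold oj q
  have h : Lf K W + (6 * K + 1) * j + i - Lf K W = i + (6 * K + 1) * j := by omega
  rw [h, Nat.add_mul_div_left _ _ (by omega), Nat.div_eq_of_lt (by omega)]
  simp

theorem oi_blk (j i : ℕ) (hi : i ≤ 6 * K) : oi K W (Lf K W + q K * j + i) = i := by
  unfold oi q
  have h : Lf K W + (6 * K + 1) * j + i - Lf K W = i + (6 * K + 1) * j := by omega
  rw [h, Nat.add_mul_mod_self_left, Nat.mod_eq_of_lt (by omega)]

theorem not_inF_blk (j i : ℕ) : ¬ inF K W (Lf K W + q K * j + i) := by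
  unfold inF
  have : 0 ≤ q K * j := Nat.zero_le _
  omega

theorem inB_blk (j i : ℕ) (hj : j < W.N) (hi : i ≤ 6 * K) : inB K W (Lf K W + q K * j + i) := by
  unfold inB
  have h : q K * (j + 1) ≤ q K * W.N := Nat.mul_le_mul_left _ hj
  have h2 : q K * (j + 1) = q K * j + q K := by ring
  have h3 : q K = 6 * K + 1 := rfl
  omega

theorem not_inF_back (b : ℕ) : ¬ inF K W (Lf K W + q K * W.N + b) := not_inF_blk _ _

theorem not_inB_back (b : ℕ) : ¬ inB K W (Lf K W + q K * W.N + b) := by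
  unfold inB
  omega

theorem bc_back (b : ℕ) : bc K W (Lf K W + q K * W.N + b) = b := by
  unfold bc
  omega

theorem exists_blk {c : ℕ} (h1 : ¬ inF K W c) (h2 : inB K W c) :
    ∃ j i, j < W.N ∧ i ≤ 6 * K ∧ c = Lf K W + q K * j + i ∧ oj K W c = j ∧ oi K W c = i := by
  have h1' : Lf K W ≤ c := not_lt.1 h1
  have h2' : c < Lf K W + q K * W.N := h2
  have h3 := Nat.div_add_mod (c - Lf K W) (q K)
  have h4 : (c - Lf K W) % q K < q K := Nat.mod_lt _ (by unfold q; omega)
  have hq : q K = 6 * K + 1 := rfl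
  refine ⟨(c - Lf K W) / q K, (c - Lf K W) % q K, ?_, ?_, ?_, rfl, rfl⟩
  · rw [Nat.div_lt_iff_lt_mul (by unfold q; omega), Nat.mul_comm]
    omega
  · omega
  · omega

theorem exists_back {c : ℕ} (h2 : ¬ inB K W c) (h3 : c < (next K W).N) :
    ∃ b, b < Lf K W ∧ c = Lf K W + q K * W.N + b ∧ bc K W c = b := by
  have h2' : Lf K W + q K * W.N ≤ c := not_lt.1 h2
  have h3' : c < 2 * Lf K W + q K * W.N := h3
  refine ⟨c - (Lf K W + q K * W.N), ?_, ?_, rfl⟩
  · omega
  · omega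

theorem not_inF_of_not_inB {c : ℕ} (h : ¬ inB K W c) : ¬ inF K W c := by
  unfold inB at h
  unfold inF
  have : 0 ≤ q K * W.N := Nat.zero_le _
  omega

theorem mainc_eq (j : ℕ) : mainc K W j = Lf K W + q K * j + 4 * K := rfl

theorem mainc_lt {j : ℕ} (hj : j < W.N) : mainc K W j < (next K W).N := by
  have h := inB_blk (K := K) (W := W) j (4 * K) hj (by omega)
  unfold inB at h
  show _ < 2 * Lf K W + q K * W.N
  unfold mainc
  omega

theorem dig_le (d l : ℕ) : dig d l ≤ 1 := by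
  unfold dig
  omega

theorem div_split (d l : ℕ) : d / 2 ^ l = 2 * (d / 2 ^ (l + 1)) + dig d l := by
  unfold dig
  rw [pow_succ, ← Nat.div_div_eq_div_mul]
  omega

theorem sg_abs (d l : ℕ) : |sg d l| ≤ 1 := by
  unfold sg
  have h := dig_le d l
  interval_cases h1 : dig d l <;> norm_num

/-- The parameters of the generation step (module N6 shows that they exist). -/
structure Par (K : ℕ) (W : Word) {S : Type} (X Yo : ℕ → ℝ) (αo βo : S → ℝ)
    (yo : S → ℕ → ℕ → ℝ) (Bg T C : ℝ) (η : ℕ → ℝ) : Prop where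
  C1 : 1 ≤ C
  TC : 100 * C ≤ T
  BgX : ∀ c, c < (next K W).N → X c + 1 ≤ Bg
  Bg1 : 1 ≤ Bg
  eta : ∀ l, 0 < η l
  xb : ∀ c, c < (next K W).N → |X c| ≤ C
  Bgb : |Bg| ≤ C
  yb : ∀ s r j, r < W.R → j < W.N → |yo s r j| ≤ C
  ab : ∀ s c, c < (next K W).N → |αo s * X c| ≤ C
  bb : ∀ s c, c < (next K W).N → |βo s * YN K W Yo Bg η c| ≤ C
  eb : ∀ l c, l < K → c < (next K W).N → |η l * YN K W Yo Bg η c| ≤ C
  vs : ∀ l c, l < K → c < (next K W).N → ¬ inF K W c → inB K W c → vis K l (oi K W c) →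
    |η l * YN K W Yo Bg η c| ≤ 1 / 4

end Pool.Agent.RN
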