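import Pool.Agent.H99.RN.NextBase

/-!
# Project RN, module N5: monotonicity of the new certificate
-/

set_option autoImplicit false

namespace Pool.Agent.RN

theorem exists_top_digit {K l0 d d' : ℕ} (hd : d < 2 ^ K) (hd' : d' < 2 ^ K)
    (h : d / 2 ^ (l0 + 1) < d' / 2 ^ (l0 + 1)) :
    ∃ i, l0 < i ∧ i < K ∧ dig d i = 0 ∧ dig d' i = 1 ∧ ∀ i', i < i' → dig d i' = dig d' i' := by
  have hlK : l0 + 1 ≤ K := by
    by_contra hc
    have h1 : 2 ^ K ≤ 2 ^ (l0 + 1) := Nat.pow_le_pow_right (by norm_num) (by omega)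
    rw [Nat.div_eq_of_lt (lt_of_lt_of_le hd h1), Nat.div_eq_of_lt (lt_of_lt_of_le hd' h1)] at h
    exact lt_irrefl _ h
  let P : ℕ → Prop := fun i => d / 2 ^ i < d' / 2 ^ i
  have hdec : DecidablePred P := fun i => Nat.decLt _ _
  set i := Nat.findGreatest P K with hi
  have h1 : P i := Nat.findGreatest_spec (P := P) hlK h
  have h2 : l0 + 1 ≤ i := Nat.le_findGreatest hlK h
  have h3 : i ≤ K := Nat.findGreatest_le K
  have h4 : i ≠ K := by
    intro h5
    have h6 : d / 2 ^ K < d' / 2 ^ K := by rw [h5] at h1; exact h1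
    rw [Nat.div_eq_of_lt hd, Nat.div_eq_of_lt hd'] at h6
    exact lt_irrefl _ h6
  have h5 : ¬ P (i + 1) := Nat.findGreatest_is_greatest (P := P) (Nat.lt_succ_self i) (by omega)
  have h1' : d / 2 ^ i < d' / 2 ^ i := h1
  have h5' : ¬ d / 2 ^ (i + 1) < d' / 2 ^ (i + 1) := h5
  have e1 := div_split d i
  have e2 := div_split d' i
  have g1 := dig_le d i
  have g2 := dig_le d' i
  have h6 : d / 2 ^ (i + 1) = d' / 2 ^ (i + 1) := by omega
  refine ⟨i, by omega, by omega, by omega, by omega, fun i' hi' => ?_⟩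
  unfold dig
  have h7 : ∀ x : ℕ, x / 2 ^ i' = x / 2 ^ (i + 1) / 2 ^ (i' - (i + 1)) := by
    intro x
    rw [Nat.div_div_eq_div_mul, ← pow_add]
    congr 2
    omega
  rw [h7 d, h7 d', h6]

theorem geom_le {T : ℝ} (hT : 2 ≤ T) (i : ℕ) :
    ∑ l ∈ Finset.range i, T ^ (l + 1) ≤ 2 * T ^ i := by
  induction i with
  | zero => simp
  | succ i ih =>
    rw [Finset.sum_range_succ]
    have h1 : 0 < T ^ i := by positivity
    have h2 : T ^ (i + 1) = T * T ^ i := by ring
    nlinarith

/-- DOM: the highest different digit decides. -/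
theorem dom {K l0 d d' : ℕ} (hd : d < 2 ^ K) (hd' : d' < 2 ^ K)
    (h : d / 2 ^ (l0 + 1) < d' / 2 ^ (l0 + 1)) (a : ℕ → ℝ) {B T : ℝ} (hB : 0 ≤ B)
    (hT : 4 * B + 2 ≤ T) (ha : ∀ i, l0 < i → i < K → 1 / 2 ≤ a i) (hb : ∀ i, i < K → |a i| ≤ B) :
    T ≤ ∑ l ∈ Finset.range K, (sg d l - sg d' l) * T ^ (l + 1) * a l := by
  obtain ⟨i, h1, h2, h3, h4, h5⟩ := exists_top_digit hd hd' h
  have e1 : ∑ l ∈ Finset.range K, (sg d l - sg d' l) * T ^ (l + 1) * a l =
      ∑ l ∈ Finset.range (i + 1), (sg d l - sg d' l) * T ^ (l + 1) * a l := by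
    symm
    apply Finset.sum_subset
    · intro l hl
      rw [Finset.mem_range] at hl ⊢
      omega
    · intro l _ hl
      rw [Finset.mem_range, not_lt] at hl
      have : sg d l = sg d' l := by
        unfold sg
        rw [h5 l (by omega)]
      rw [this]
      ring
  rw [e1, Finset.sum_range_succ]
  have hT0 : 0 < T := by linarith
  have e2 : (sg d i - sg d' i) * T ^ (i + 1) * a i = 2 * T ^ (i + 1) * a i := by
    unfold sg
    rw [h3, h4]
    push_cast
    ring
  have e3 : T ^ (i + 1) ≤ 2 * T ^ (i + 1) * a i := by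
    have := ha i h1 h2
    have h6 : 0 < T ^ (i + 1) := by positivity
    nlinarith
  have e4 : -(4 * B * T ^ i) ≤
      ∑ l ∈ Finset.range i, (sg d l - sg d' l) * T ^ (l + 1) * a l := by
    have h6 : ∀ l ∈ Finset.range i, -(2 * B * T ^ (l + 1)) ≤
        (sg d l - sg d' l) * T ^ (l + 1) * a l := by
      intro l hl
      rw [Finset.mem_range] at hl
      have h7 : |(sg d l - sg d' l) * T ^ (l + 1) * a l| ≤ 2 * B * T ^ (l + 1) := by
        rw [abs_mul, abs_mul, abs_of_pos (show 0 < T ^ (l + 1) by positivity)]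
        have h8 : |sg d l - sg d' l| ≤ 2 := by
          have := abs_sub (sg d l) (sg d' l)
          have g1 := sg_abs d l
          have g2 := sg_abs d' l
          calc |sg d l - sg d' l| ≤ |sg d l| + |sg d' l| := abs_sub _ _
            _ ≤ 2 := by linarith
        have h9 := hb l (by omega)
        have h10 : 0 ≤ T ^ (l + 1) := by positivity
        calc |sg d l - sg d' l| * T ^ (l + 1) * |a l| ≤ 2 * T ^ (l + 1) * B := by
              gcongr
          _ = 2 * B * T ^ (l + 1) := by ring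
      exact (abs_le.1 h7).1
    calc -(4 * B * T ^ i) ≤ -(2 * B * ∑ l ∈ Finset.range i, T ^ (l + 1)) := by
          have := geom_le (show (2 : ℝ) ≤ T by linarith) i
          nlinarith
      _ = ∑ l ∈ Finset.range i, -(2 * B * T ^ (l + 1)) := by
          rw [Finset.sum_neg_distrib, Finset.mul_sum]
      _ ≤ _ := Finset.sum_le_sum h6
  rw [e2]
  have h11 : T ≤ T ^ i := by
    have h12 : 1 ≤ i := by omega
    calc T = T ^ 1 := (pow_one T).symm
      _ ≤ T ^ i := pow_le_pow_right₀ (by linarith) h12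
  have h13 : T ^ (i + 1) = T * T ^ i := by ring
  nlinarith

theorem blkState_lo (d l w e p1 p2 f i : ℕ) :
    2 * (d / 2 ^ (l + 1)) ≤ blkState d l w e p1 p2 f i := by
  have h := div_split d l
  unfold blkState
  split_ifs <;> omega

theorem blkState_hi (d l w e p1 p2 f i : ℕ) (hw : w ≤ 1) :
    blkState d l w e p1 p2 f i ≤ 2 * (d / 2 ^ (l + 1)) + 2 := by
  have h := div_split d l
  have h1 := dig_le d l
  unfold blkState
  split_ifs <;> omega

theorem blkState_mono (d d' l w w' e p1 p2 f i : ℕ) (hw : w ≤ 1)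
    (ht : d / 2 ^ (l + 1) = d' / 2 ^ (l + 1)) (h0 : dig d l = 0) (h1 : dig d' l = 1) :
    blkState d l w e p1 p2 f i ≤ blkState d' l w' e p1 p2 f i := by
  have e1 := div_split d l
  have e2 := div_split d' l
  unfold blkState
  split_ifs <;> omega

theorem lev_lt {K ι : ℕ} (h : ι ≠ K) (h2 : ι < 2 * K + 1) : lev K ι < K := by
  unfold lev
  split_ifs <;> omega

section

variable {K : ℕ} {W : Word} {S : Type} {X Yo : ℕ → ℝ} {αo βo : S → ℝ} {yo : S → ℕ → ℕ → ℝ}
  {Bg T C : ℝ} {η : ℕ → ℝ}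

/-- coefficient of level `l` of the potential on a new row -/
noncomputable def bN (K : ℕ) (W : Word) (X Yo : ℕ → ℝ) (Bg : ℝ) (η : ℕ → ℝ) (r l c : ℕ) : ℝ :=
  if ¬ inF K W c ∧ inB K W c then posN K W X Yo Bg η l (r % (2 * K + 1)) c else X c

/-- the part of the potential without new levels -/
noncomputable def rN (K : ℕ) (W : Word) (X : ℕ → ℝ) (αs : ℝ) (ys : ℕ → ℕ → ℝ) (d r c : ℕ) : ℝ :=
  if ¬ inF K W c ∧ inB K W c then ys (r / (2 * K + 1)) (oj K W c)
  else αs * X c + (if zN K W (fun _ => 0) d c = 1 then 1 else -1)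

theorem yN_form (αs : ℝ) (ys : ℕ → ℕ → ℝ) (d r c : ℕ) (hr : r % (2 * K + 1) ≠ K) :
    yN K W X Yo Bg η T αs ys d r c =
      ∑ l ∈ Finset.range K, sg d l * T ^ (l + 1) * bN K W X Yo Bg η r l c +
        rN K W X αs ys d r c := by
  unfold yN bN rN
  by_cases h : ¬ inF K W c ∧ inB K W c
  · rw [if_pos h, if_pos h, if_neg hr]
    simp only [h, not_false_eq_true, and_self, if_true]
    ring
  · rw [if_neg h, if_neg h]
    simp only [h, if_false]
    unfold αN
    rw [← Finset.sum_mul]
    ring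

theorem HN_near (P : Par K W X Yo αo βo yo Bg T C η) {l c : ℕ} (hl : l < K)
    (hc : c < (next K W).N) : |HN K W X Yo Bg η l c - X c| ≤ 1 / 4 := by
  unfold HN
  split_ifs with h
  · rw [add_sub_cancel_left]
    exact P.vs l c hl hc h.1 h.2.1 h.2.2
  · simp

theorem HN_bd (P : Par K W X Yo αo βo yo Bg T C η) {l c : ℕ} (hl : l < K)
    (hc : c < (next K W).N) : |HN K W X Yo Bg η l c| ≤ 2 * C := by
  have h1 := HN_near P hl hc
  have h2 := P.xb c hc
  have h3 := P.C1
  have h4 : |HN K W X Yo Bg η l c| ≤ |HN K W X Yo Bg η l c - X c| + |X c| := by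
    have := abs_add_le (HN K W X Yo Bg η l c - X c) (X c)
    simpa using this
  linarith

theorem HN_step (hX : ∀ j, X j + 1 ≤ X (j + 1)) (P : Par K W X Yo αo βo yo Bg T C η) {l c : ℕ}
    (hl : l < K) (hc : c + 1 < (next K W).N) :
    1 / 2 ≤ HN K W X Yo Bg η l (c + 1) - HN K W X Yo Bg η l c := by
  have h1 := abs_le.1 (HN_near P hl (show c < (next K W).N by omega))
  have h2 := abs_le.1 (HN_near P hl hc)
  have h3 := hX c
  linarith [h1.1, h1.2, h2.1, h2.2]

theorem HN_nonneg (hX1 : ∀ j, 1 ≤ X j) (P : Par K W X Yo αo βo yo Bg T C η) {l c : ℕ}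
    (hl : l < K) (hc : c < (next K W).N) : 0 ≤ HN K W X Yo Bg η l c := by
  have h1 := abs_le.1 (HN_near P hl hc)
  have h3 := hX1 c
  linarith [h1.1, h1.2]

theorem HN_out {l c : ℕ} (h : ¬ (¬ inF K W c ∧ inB K W c)) : HN K W X Yo Bg η l c = X c := by
  unfold HN
  rw [if_neg, add_zero]
  rintro ⟨h1, h2, -⟩
  exact h ⟨h1, h2⟩

theorem posN_lo {l ι c : ℕ} (h : l < lev K ι) : posN K W X Yo Bg η l ι c = 0 := by
  unfold posN
  rw [if_pos h]

theorem posN_hi {l ι c : ℕ} (h : lev K ι < l) :
    posN K W X Yo Bg η l ι c = HN K W X Yo Bg η l c := by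
  unfold posN
  rw [if_neg (by omega), if_pos h]

theorem posN_eq {ι c : ℕ} : posN K W X Yo Bg η (lev K ι) ι c =
    if oi K W c < (if K < ι then pout K (lev K ι) else 4 * K - lev K ι) then 0
    else HN K W X Yo Bg η (lev K ι) c := by
  conv_lhs => unfold posN
  rw [if_neg (lt_irrefl _), if_neg (lt_irrefl _)]

theorem bN_hi {r l c : ℕ} (h : lev K (r % (2 * K + 1)) < l) :
    bN K W X Yo Bg η r l c = HN K W X Yo Bg η l c := by
  unfold bN
  split_ifs with h1
  · exact posN_hi h
  · exact (HN_out h1).symm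

theorem bN_bd (P : Par K W X Yo αo βo yo Bg T C η) {r l c : ℕ} (hl : l < K)
    (hc : c < (next K W).N) : |bN K W X Yo Bg η r l c| ≤ 2 * C := by
  have h3 := P.C1
  have h4 := HN_bd P hl hc
  unfold bN
  split_ifs with h1
  · unfold posN
    split_ifs <;> first | exact h4 | (rw [abs_zero]; linarith)
  · have := P.xb c hc
    linarith

theorem rN_bd (P : Par K W X Yo αo βo yo Bg T C η) (s : S) {d r c : ℕ}
    (hr : r < (next K W).R) (hc : c < (next K W).N) :
    |rN K W X (αo s) (yo s) d r c| ≤ 2 * C := by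
  have h3 := P.C1
  unfold rN
  split_ifs with h1 h2
  · obtain ⟨j, i, hj, -, -, hoj, -⟩ := exists_blk h1.1 h1.2
    rw [hoj]
    have h4 : r / (2 * K + 1) < W.R := Nat.div_lt_of_lt_mul hr
    have := P.yb s _ j h4 hj
    linarith
  · have h5 := P.ab s c hc
    have := abs_add_le (αo s * X c) 1
    rw [abs_one] at this
    linarith
  · have h5 := P.ab s c hc
    have := abs_add_le (αo s * X c) (-1)
    rw [abs_neg, abs_one] at this
    linarith

/-- the top digits are monotone in the difference of the potentials -/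
theorem top_mono (hX : ∀ j, X j + 1 ≤ X (j + 1)) (P : Par K W X Yo αo βo yo Bg T C η)
    {s s' : S} {d d' r c : ℕ} (hd : d < 2 ^ K) (hd' : d' < 2 ^ K) (hr : r < (next K W).R)
    (hrK : r % (2 * K + 1) ≠ K) (hc : c + 1 < (next K W).N)
    (h : yN K W X Yo Bg η T (αo s) (yo s) d r c - yN K W X Yo Bg η T (αo s) (yo s) d r (c + 1) <
      yN K W X Yo Bg η T (αo s') (yo s') d' r c -
        yN K W X Yo Bg η T (αo s') (yo s') d' r (c + 1)) :
    d / 2 ^ (lev K (r % (2 * K + 1)) + 1) ≤ d' / 2 ^ (lev K (r % (2 * K + 1)) + 1) := by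
  by_contra hcon
  rw [not_le] at hcon
  have hC := P.C1
  have hT := P.TC
  have h1 := dom hd' hd hcon
    (fun l => bN K W X Yo Bg η r l (c + 1) - bN K W X Yo Bg η r l c) (B := 4 * C) (T := T)
    (by linarith) (by linarith)
    (fun i h1 h2 => by
      rw [bN_hi h1, bN_hi h1]
      exact HN_step hX P h2 hc)
    (fun i h1 => by
      have g1 := bN_bd P (r := r) h1 hc
      have g2 := bN_bd P (r := r) h1 (show c < (next K W).N by omega)
      calc |bN K W X Yo Bg η r i (c + 1) - bN K W X Yo Bg η r i c|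
          ≤ |bN K W X Yo Bg η r i (c + 1)| + |bN K W X Yo Bg η r i c| := abs_sub _ _
        _ ≤ 4 * C := by linarith)
  have e1 : ∑ l ∈ Finset.range K, (sg d' l - sg d l) * T ^ (l + 1) *
      (bN K W X Yo Bg η r l (c + 1) - bN K W X Yo Bg η r l c) =
      (∑ l ∈ Finset.range K, sg d' l * T ^ (l + 1) * bN K W X Yo Bg η r l (c + 1) -
        ∑ l ∈ Finset.range K, sg d' l * T ^ (l + 1) * bN K W X Yo Bg η r l c) -
      (∑ l ∈ Finset.range K, sg d l * T ^ (l + 1) * bN K W X Yo Bg η r l (c + 1) -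
        ∑ l ∈ Finset.range K, sg d l * T ^ (l + 1) * bN K W X Yo Bg η r l c) := by
    rw [← Finset.sum_sub_distrib, ← Finset.sum_sub_distrib, ← Finset.sum_sub_distrib]
    refine Finset.sum_congr rfl fun l _ => ?_
    ring
  rw [e1] at h1
  rw [yN_form _ _ _ _ _ hrK, yN_form _ _ _ _ _ hrK, yN_form _ _ _ _ _ hrK,
    yN_form _ _ _ _ _ hrK] at h
  have b1 := abs_le.1 (rN_bd P s (d := d) hr (show c < (next K W).N by omega))
  have b2 := abs_le.1 (rN_bd P s (d := d) hr hc)
  have b3 := abs_le.1 (rN_bd P s' (d := d') hr (show c < (next K W).N by omega))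
  have b4 := abs_le.1 (rN_bd P s' (d := d') hr hc)
  linarith [b1.1, b1.2, b2.1, b2.2, b3.1, b3.2, b4.1, b4.2]

theorem dig_eq_of_top {d d' l l' : ℕ} (h : d / 2 ^ (l + 1) = d' / 2 ^ (l + 1)) (hl : l < l') :
    dig d l' = dig d' l' := by
  unfold dig
  have h7 : ∀ x : ℕ, x / 2 ^ l' = x / 2 ^ (l + 1) / 2 ^ (l' - (l + 1)) := by
    intro x
    rw [Nat.div_div_eq_div_mul, ← pow_add]
    congr 2
    omega
  rw [h7 d, h7 d', h]

theorem blk_lt_N {j i : ℕ} (hj : j < W.N) (hi : i ≤ 6 * K) :
    Lf K W + q K * j + i < (next K W).N := by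
  have h := inB_blk (K := K) (W := W) j i hj hi
  unfold inB at h
  show _ < 2 * Lf K W + q K * W.N
  omega

theorem rN_blk (αs : ℝ) (ys : ℕ → ℕ → ℝ) (d r j i : ℕ) (hj : j < W.N) (hi : i ≤ 6 * K) :
    rN K W X αs ys d r (Lf K W + q K * j + i) = ys (r / (2 * K + 1)) j := by
  unfold rN
  rw [if_pos ⟨not_inF_blk j i, inB_blk j i hj hi⟩, oj_blk j i hi]

theorem bN_blk (r l j i : ℕ) (hj : j < W.N) (hi : i ≤ 6 * K) :
    bN K W X Yo Bg η r l (Lf K W + q K * j + i) =
      posN K W X Yo Bg η l (r % (2 * K + 1)) (Lf K W + q K * j + i) := by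
  unfold bN
  rw [if_pos ⟨not_inF_blk j i, inB_blk j i hj hi⟩]

/-- inside a block, at equal top digits, the digit of the level of the row decides -/
theorem dig_of_lt (hX1 : ∀ j, 1 ≤ X j) (hX : ∀ j, X j + 1 ≤ X (j + 1))
    (P : Par K W X Yo αo βo yo Bg T C η)
    {s s' : S} {d d' r j i : ℕ}
    (hrK : r % (2 * K + 1) ≠ K) (hj : j < W.N) (hi : i + 1 ≤ 6 * K)
    (htop : d / 2 ^ (lev K (r % (2 * K + 1)) + 1) = d' / 2 ^ (lev K (r % (2 * K + 1)) + 1))
    (h : yN K W X Yo Bg η T (αo s) (yo s) d r (Lf K W + q K * j + i) -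
        yN K W X Yo Bg η T (αo s) (yo s) d r (Lf K W + q K * j + i + 1) <
      yN K W X Yo Bg η T (αo s') (yo s') d' r (Lf K W + q K * j + i) -
        yN K W X Yo Bg η T (αo s') (yo s') d' r (Lf K W + q K * j + i + 1)) :
    dig d (lev K (r % (2 * K + 1))) = 0 ∧ dig d' (lev K (r % (2 * K + 1))) = 1 := by
  have hι : r % (2 * K + 1) < 2 * K + 1 := Nat.mod_lt _ (by omega)
  have hl : lev K (r % (2 * K + 1)) < K := lev_lt hrK hι
  have hc1 : Lf K W + q K * j + i < (next K W).N := blk_lt_N hj (by omega)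
  have hc2 : Lf K W + q K * j + i + 1 < (next K W).N := blk_lt_N (i := i + 1) hj hi
  have hr1 : ∀ (αs : ℝ) (ys : ℕ → ℕ → ℝ) (d : ℕ), rN K W X αs ys d r (Lf K W + q K * j + i) =
      rN K W X αs ys d r (Lf K W + q K * j + i + 1) := by
    intro αs ys d
    rw [rN_blk _ _ _ _ _ _ hj (by omega), Nat.add_assoc, rN_blk _ _ _ _ _ _ hj hi]
  rw [yN_form _ _ _ _ _ hrK, yN_form _ _ _ _ _ hrK, yN_form _ _ _ _ _ hrK,
    yN_form _ _ _ _ _ hrK, hr1, hr1] at h
  have h1 : 0 < ∑ l ∈ Finset.range K, (sg d l - sg d' l) * T ^ (l + 1) *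
      (bN K W X Yo Bg η r l (Lf K W + q K * j + i + 1) -
        bN K W X Yo Bg η r l (Lf K W + q K * j + i)) := by
    have e1 : ∑ l ∈ Finset.range K, (sg d l - sg d' l) * T ^ (l + 1) *
        (bN K W X Yo Bg η r l (Lf K W + q K * j + i + 1) -
          bN K W X Yo Bg η r l (Lf K W + q K * j + i)) =
        (∑ l ∈ Finset.range K, sg d l * T ^ (l + 1) *
            bN K W X Yo Bg η r l (Lf K W + q K * j + i + 1) -
          ∑ l ∈ Finset.range K, sg d l * T ^ (l + 1) *
            bN K W X Yo Bg η r l (Lf K W + q K * j + i)) -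
        (∑ l ∈ Finset.range K, sg d' l * T ^ (l + 1) *
            bN K W X Yo Bg η r l (Lf K W + q K * j + i + 1) -
          ∑ l ∈ Finset.range K, sg d' l * T ^ (l + 1) *
            bN K W X Yo Bg η r l (Lf K W + q K * j + i)) := by
      rw [← Finset.sum_sub_distrib, ← Finset.sum_sub_distrib, ← Finset.sum_sub_distrib]
      refine Finset.sum_congr rfl fun l _ => ?_
      ring
    rw [e1]
    linarith
  rw [Finset.sum_eq_single (lev K (r % (2 * K + 1)))
    (fun l' _ hne => by
      rcases lt_or_gt_of_ne hne with h2 | h2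
      · rw [Nat.add_assoc, bN_blk _ _ _ _ hj hi, bN_blk _ _ _ _ hj (by omega), posN_lo h2,
          posN_lo h2]
        ring
      · have : sg d l' = sg d' l' := by
          unfold sg
          rw [dig_eq_of_top htop h2]
        rw [this]
        ring)
    (fun h2 => absurd (Finset.mem_range.2 hl) h2)] at h1
  have h2 : 0 ≤ bN K W X Yo Bg η r (lev K (r % (2 * K + 1))) (Lf K W + q K * j + i + 1) -
      bN K W X Yo Bg η r (lev K (r % (2 * K + 1))) (Lf K W + q K * j + i) := by
    have g0 := HN_step (Yo := Yo) (Bg := Bg) (η := η) hX P hl hc2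
    have g1 := HN_nonneg hX1 P hl hc2
    rw [Nat.add_assoc] at g0 g1 ⊢
    rw [bN_blk _ _ _ _ hj hi, bN_blk _ _ _ _ hj (by omega), posN_eq, posN_eq,
      oi_blk _ _ hi, oi_blk _ _ (show i ≤ 6 * K by omega)]
    by_cases c1 : i + 1 < (if K < r % (2 * K + 1) then pout K (lev K (r % (2 * K + 1)))
        else 4 * K - lev K (r % (2 * K + 1)))
    · rw [if_pos c1, if_pos (by omega)]
      simp
    · rw [if_neg c1]
      by_cases c2 : i < (if K < r % (2 * K + 1) then pout K (lev K (r % (2 * K + 1)))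
        else 4 * K - lev K (r % (2 * K + 1)))
      · rw [if_pos c2]
        linarith
      · rw [if_neg c2]
        linarith
  have hT0 : 0 < T ^ (lev K (r % (2 * K + 1)) + 1) := by
    have := P.TC
    have := P.C1
    have : 0 < T := by linarith
    positivity
  have h3 : 0 < sg d (lev K (r % (2 * K + 1))) - sg d' (lev K (r % (2 * K + 1))) := by
    by_contra hcon
    rw [not_lt] at hcon
    have h4 : (sg d (lev K (r % (2 * K + 1))) - sg d' (lev K (r % (2 * K + 1)))) *
        T ^ (lev K (r % (2 * K + 1)) + 1) *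
        (bN K W X Yo Bg η r (lev K (r % (2 * K + 1))) (Lf K W + q K * j + i + 1) -
          bN K W X Yo Bg η r (lev K (r % (2 * K + 1))) (Lf K W + q K * j + i)) ≤ 0 :=
      mul_nonpos_of_nonpos_of_nonneg (mul_nonpos_of_nonpos_of_nonneg hcon hT0.le) h2
    linarith
  unfold sg at h3
  have h5 : (dig d (lev K (r % (2 * K + 1))) : ℝ) < (dig d' (lev K (r % (2 * K + 1))) : ℝ) := by
    linarith
  have h6 : dig d (lev K (r % (2 * K + 1))) < dig d' (lev K (r % (2 * K + 1))) := by
    exact_mod_cast h5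
  have h7 := dig_le d' (lev K (r % (2 * K + 1)))
  omega

/-- N5: the condition (mono) of the new certificate -/
theorem mono_next (hX1 : ∀ j, 1 ≤ X j) (hX : ∀ j, X j + 1 ≤ X (j + 1))
    (P : Par K W X Yo αo βo yo Bg T C η) {ko : S → ℕ → ℕ → ℕ} {zo : S → ℕ → ℕ}
    (hz : ∀ s j, zo s j ≤ 1) (hstart : ∀ s r, r < W.R → ko s r 0 = 0)
    (hmono : ∀ s s' r j, r < W.R → j + 1 < W.N →
      yo s r j - yo s r (j + 1) < yo s' r j - yo s' r (j + 1) → ko s r (j + 1) ≤ ko s' r (j + 1))
    (s s' : S) {d d' : ℕ} (hd : d < 2 ^ K) (hd' : d' < 2 ^ K) (r c : ℕ)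
    (hr : r < (next K W).R) (hc : c + 1 < (next K W).N)
    (h : yN K W X Yo Bg η T (αo s) (yo s) d r c - yN K W X Yo Bg η T (αo s) (yo s) d r (c + 1) <
      yN K W X Yo Bg η T (αo s') (yo s') d' r c -
        yN K W X Yo Bg η T (αo s') (yo s') d' r (c + 1)) :
    kN K W (ko s) (zo s) d r (c + 1) ≤ kN K W (ko s') (zo s') d' r (c + 1) := by
  have ha : r / (2 * K + 1) < W.R := Nat.div_lt_of_lt_mul hr
  by_cases hrK : r % (2 * K + 1) = K
  · -- the old row
    unfold kN
    rw [if_pos hrK, if_pos hrK]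
    by_cases hF : inF K W (c + 1)
    · rw [if_pos hF, if_pos hF]
    · rw [if_neg hF, if_neg hF]
      by_cases hB : inB K W (c + 1)
      · rw [if_pos hB, if_pos hB]
        obtain ⟨j, i, hj, hi, hcc, hoj, hoi⟩ := exists_blk hF hB
        rw [hoj, hoi]
        rcases Nat.eq_zero_or_pos i with h0 | h0
        · rw [h0, if_pos (Nat.zero_le _), if_pos (Nat.zero_le _)]
          rcases Nat.eq_zero_or_pos j with hj0 | hj0
          · rw [hj0, hstart s _ ha]
            exact Nat.zero_le _
          · obtain ⟨j', rfl⟩ : ∃ j', j = j' + 1 := ⟨j - 1, by omega⟩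
            have hc' : c = Lf K W + q K * j' + 6 * K := by
              have e1 : q K * (j' + 1) = q K * j' + (6 * K + 1) := by
                unfold q
                ring
              omega
            have hy : ∀ (αs : ℝ) (ys : ℕ → ℕ → ℝ) (d : ℕ),
                yN K W X Yo Bg η T αs ys d r c = ys (r / (2 * K + 1)) j' := by
              intro αs ys d
              unfold yN
              rw [hc', if_pos ⟨not_inF_blk _ _, inB_blk _ _ (by omega) le_rfl⟩, if_pos hrK,
                oj_blk _ _ le_rfl]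
            have hy' : ∀ (αs : ℝ) (ys : ℕ → ℕ → ℝ) (d : ℕ),
                yN K W X Yo Bg η T αs ys d r (c + 1) = ys (r / (2 * K + 1)) (j' + 1) := by
              intro αs ys d
              unfold yN
              rw [if_pos ⟨hF, hB⟩, if_pos hrK, hoj]
            rw [hy, hy, hy', hy'] at h
            exact hmono s s' _ j' ha hj h
        · exfalso
          obtain ⟨i', rfl⟩ : ∃ i', i = i' + 1 := ⟨i - 1, by omega⟩
          have hc' : c = Lf K W + q K * j + i' := by omega
          have hy : ∀ (αs : ℝ) (ys : ℕ → ℕ → ℝ) (d : ℕ),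
              yN K W X Yo Bg η T αs ys d r c = ys (r / (2 * K + 1)) j := by
            intro αs ys d
            unfold yN
            rw [hc', if_pos ⟨not_inF_blk _ _, inB_blk _ _ hj (by omega)⟩, if_pos hrK,
              oj_blk _ _ (by omega)]
          have hy' : ∀ (αs : ℝ) (ys : ℕ → ℕ → ℝ) (d : ℕ),
              yN K W X Yo Bg η T αs ys d r (c + 1) = ys (r / (2 * K + 1)) j := by
            intro αs ys d
            unfold yN
            rw [if_pos ⟨hF, hB⟩, if_pos hrK, hoj]
          rw [hy, hy, hy', hy'] at h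
          linarith
      · rw [if_neg hB, if_neg hB]
  · -- a new row
    have htop := top_mono hX P hd hd' hr hrK hc h
    unfold kN
    rw [if_neg hrK, if_neg hrK]
    by_cases hF : inF K W (c + 1)
    · rw [if_pos hF, if_pos hF]
      exact min_le_min le_rfl (Nat.mul_le_mul_left _ htop)
    · rw [if_neg hF, if_neg hF]
      by_cases hB : inB K W (c + 1)
      · rw [if_pos hB, if_pos hB]
        obtain ⟨j, i, hj, hi, hcc, hoj, hoi⟩ := exists_blk hF hB
        rw [hoj, hoi]
        -- the comparison of two block states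
        have key : ∀ (w w' e p1 p2 f : ℕ), w ≤ 1 →
            blkState d (lev K (r % (2 * K + 1))) w e p1 p2 f i ≤
              blkState d' (lev K (r % (2 * K + 1))) w' e p1 p2 f i := by
          intro w w' e p1 p2 f hw
          rcases Nat.lt_or_ge (d / 2 ^ (lev K (r % (2 * K + 1)) + 1))
            (d' / 2 ^ (lev K (r % (2 * K + 1)) + 1)) with ht | ht
          · have g1 := blkState_hi d (lev K (r % (2 * K + 1))) w e p1 p2 f i hw
            have g2 := blkState_lo d' (lev K (r % (2 * K + 1))) w' e p1 p2 f i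
            omega
          · have ht' : d / 2 ^ (lev K (r % (2 * K + 1)) + 1) =
                d' / 2 ^ (lev K (r % (2 * K + 1)) + 1) := le_antisymm htop ht
            rcases Nat.eq_zero_or_pos i with h0 | h0
            · have g2 := blkState_lo d' (lev K (r % (2 * K + 1))) w' e p1 p2 f i
              have g1 : blkState d (lev K (r % (2 * K + 1))) w e p1 p2 f i =
                  2 * (d / 2 ^ (lev K (r % (2 * K + 1)) + 1)) := by
                unfold blkState
                rw [if_pos (by omega)]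
              omega
            · obtain ⟨i', rfl⟩ : ∃ i', i = i' + 1 := ⟨i - 1, by omega⟩
              have hc' : c = Lf K W + q K * j + i' := by omega
              rw [hc'] at h
              obtain ⟨g1, g2⟩ := dig_of_lt hX1 hX P hrK hj (by omega) ht' h
              exact blkState_mono d d' _ w w' e p1 p2 f _ hw ht' g1 g2
        have htop2 : 2 * (d / 2 ^ (lev K (r % (2 * K + 1)) + 1)) ≤
            2 * (d' / 2 ^ (lev K (r % (2 * K + 1)) + 1)) := Nat.mul_le_mul_left _ htop
        by_cases hu : K < r % (2 * K + 1)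
        · rw [if_pos hu, if_pos hu]
          by_cases h1 : W.kind j ≠ Kind.none ∧ W.row j = r / (2 * K + 1)
          · rw [if_pos h1, if_pos h1]
            exact key _ _ _ _ _ _ (hz s j)
          · rw [if_neg h1, if_neg h1]
            exact htop2
        · rw [if_neg hu, if_neg hu]
          by_cases h1 : W.kind j = Kind.wire ∧ W.row j + 1 = r / (2 * K + 1)
          · rw [if_pos h1, if_pos h1]
            exact key _ _ _ _ _ _ (by omega)
          · rw [if_neg h1, if_neg h1]
            exact htop2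
      · rw [if_neg hB, if_neg hB]
        exact Nat.sub_le_sub_right (Nat.mul_le_mul_left _ htop) _

end

end Pool.Agent.RN
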